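import Pool.Agent.P.MP_dba3d2_lc.H.Iface
import Pool.Agent.P.MP_dba3d2_lc.A.Iface

/-! Step FIN0 of the stability project. -/

namespace Pool.Agent.P.MP_dba3d2_lc

open Filter FirstOrder

namespace Fin0

open SimpleGraph

variable {G : Type} [Group G] {S : Set G}

/-- left multiplication as a map of graphs -/
def lm (S : Set G) (d : G) : mulCayley S →g mulCayley S :=
  ⟨fun x => d * x, fun h => mulCayley_adj_mul_iff_right.2 h⟩

theorem conn (h : Subgroup.closure S = ⊤) : (mulCayley S).Connected := by
  have k : ∀ g : G, (mulCayley S).Reachable 1 g := fun g => by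
    refine Subgroup.closure_induction (p := fun g _ => (mulCayley S).Reachable 1 g)
      (fun x hx => ?_) .rfl (fun x y _ _ a b => ?_) (fun x _ a => ?_) (h.ge (Subgroup.mem_top g))
    · by_cases e : 1 = x
      · exact e ▸ .rfl
      · exact Adj.reachable ((mulCayley_adj S 1 x).2 ⟨e, .inl (by simpa using hx)⟩)
    · exact a.trans (by simpa [lm] using b.map (lm S x))
    · simpa [lm] using (a.map (lm S x⁻¹)).symm
  exact ⟨fun x y => (k x).symm.trans (k y)⟩

theorem dist_mul (h : (mulCayley S).Connected) (d x y : G) :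
    (mulCayley S).dist (d * x) (d * y) = (mulCayley S).dist x y := by
  have k : ∀ d x y : G, (mulCayley S).dist (d * x) (d * y) ≤ (mulCayley S).dist x y :=
    fun d x y => by
      obtain ⟨p, hp⟩ := h.exists_walk_length_eq_dist x y
      exact (dist_le (p.map (lm S d))).trans_eq ((p.length_map _).trans hp)
  exact (k d x y).antisymm (by simpa using k d⁻¹ (d * x) (d * y))

theorem dist_eq (h : (mulCayley S).Connected) (x y : G) :
    (mulCayley S).dist 1 (x⁻¹ * y) = (mulCayley S).dist x y := by
  rw [← dist_mul h x, mul_one, mul_inv_cancel_left]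

theorem geo (h : (mulCayley S).Connected) (g : G) (n : ℕ) (hg : (mulCayley S).dist 1 g = n + 1) :
    ∃ s, (mulCayley S).dist 1 s = 1 ∧ (mulCayley S).dist 1 (s⁻¹ * g) = n := by
  obtain ⟨p, hp⟩ := h.exists_walk_length_eq_dist 1 g
  rw [hg] at hp
  cases p with
  | nil => simp at hp
  | @cons _ s _ a q =>
    have e := dist_eq_one_iff_adj.2 a
    have b := dist_le q
    have c := h.dist_triangle (u := 1) (v := s) (w := g)
    rw [Walk.length_cons] at hp
    exact ⟨s, e, by rw [dist_eq h]; omega⟩

theorem fin (h : (mulCayley S).Connected) (hS : S.Finite) (n : ℕ) :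
    {g | (mulCayley S).dist 1 g ≤ n}.Finite := by
  induction n with
  | zero => exact (Set.finite_singleton 1).subset fun g hg =>
      (h.dist_eq_zero_iff.1 (Nat.le_zero.1 hg)).symm
  | succ n ih =>
    refine (ih.union ((hS.union hS.inv).image2 (· * ·) ih)).subset fun g hg => ?_
    rcases Nat.of_le_succ hg with a | a
    · exact .inl a
    obtain ⟨s, h1, h2⟩ := geo h g n a
    refine .inr ⟨s, ?_, s⁻¹ * g, h2.le, mul_inv_cancel_left _ _⟩
    simpa using ((mulCayley_adj S 1 s).1 (dist_eq_one_iff_adj.1 h1)).2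

end Fin0

open Fin0 in
theorem p_FIN0 (hHG : S_HG) (hSLIM : S_SLIM) (hSTAB0 : S_STAB0) :
    S_FIN0 := by
  rintro G _ ⟨S, hS, δ, h0, h⟩
  have c := conn hS
  obtain ⟨δ, h⟩ : ∃ δ : ℝ, FourPoint (SimpleGraph.mulCayley (S : Set G)) δ :=
    h.elim (fun a => ⟨δ, a⟩) fun a => (hSLIM _ _ δ c h0 a).imp fun _ b => b.2
  let R : HG0 :=
    { G := G
      len := fun g => (SimpleGraph.mulCayley (S : Set G)).dist 1 g
      len_eq_zero := fun g => c.dist_eq_zero_iff.trans eq_comm
      len_inv := fun g => by rw [← mul_one g⁻¹, dist_eq c, SimpleGraph.dist_comm]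
      len_mul := fun g k => (c.dist_triangle (v := g)).trans_eq (by
        rw [← dist_eq c g, inv_mul_cancel_left])
      geo := geo c
      fin := fin c S.finite_toSet
      δ := ⌈δ⌉₊
      hyp := fun x y z => by
        have a := (h 1 x y z).trans (add_le_add_right
          (mul_le_mul_of_nonneg_left (Nat.le_ceil δ) zero_le_two) _)
        rw [dist_eq c, dist_eq c, dist_eq c, SimpleGraph.dist_comm (u := 1),
          SimpleGraph.dist_comm (u := 1), SimpleGraph.dist_comm (u := 1)]
        exact_mod_cast a }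
  obtain ⟨e, he⟩ := hHG R
  exact hSTAB0 ⟨R, e, he⟩

end Pool.Agent.P.MP_dba3d2_lc
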