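import Pool.Agent.P.MP_dba3d2_lc.H.Iface

/-! Step SLIM of the stability project. -/

namespace Pool.Agent.P.MP_dba3d2_lc

open Filter FirstOrder

namespace SlimA

variable {V : Type} {X : SimpleGraph V}

theorem split {x y : V} (p : X.Walk x y) {v : V} (hv : v ∈ p.support) :
    X.dist x v + X.dist v y ≤ p.length := by
  classical
  have h := congrArg SimpleGraph.Walk.length (p.take_spec hv)
  rw [SimpleGraph.Walk.length_append] at h
  have h1 := SimpleGraph.dist_le (p.takeUntil v hv)
  have h2 := SimpleGraph.dist_le (p.dropUntil v hv)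
  omega

theorem exists_at (hX : X.Connected) {x y : V} (p : X.Walk x y) :
    ∀ t ≤ p.length, ∃ v ∈ p.support, X.dist x v ≤ t ∧ X.dist v y + t ≤ p.length := by
  induction p with
  | nil => intro t ht; exact ⟨_, SimpleGraph.Walk.start_mem_support _, by simp, by simpa using ht⟩
  | @cons a b c h p ih =>
    intro t ht
    rcases t with _ | t
    · exact ⟨a, SimpleGraph.Walk.start_mem_support _, by simp,
        SimpleGraph.dist_le (SimpleGraph.Walk.cons h p)⟩
    · rw [SimpleGraph.Walk.length_cons] at ht ⊢
      obtain ⟨v, hv, h1, h2⟩ := ih t (by omega)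
      refine ⟨v, by simp [hv], ?_, by omega⟩
      have h3 := hX.dist_triangle (u := a) (v := b) (w := v)
      have h4 : X.dist a b = 1 := SimpleGraph.dist_eq_one_iff_adj.2 h
      omega

theorem near (hX : X.Connected) {δ : ℝ} (hS : Slim X δ) {x y : V} (p : X.Walk x y)
    (hp : p.length = X.dist x y) {v : V} (hv : v ∈ p.support) (u : V) :
    (X.dist u v : ℝ) + X.dist x v ≤ X.dist x u + 2 * δ ∨
      (X.dist u v : ℝ) + X.dist v y ≤ X.dist y u + 2 * δ := by
  obtain ⟨q, hq⟩ := hX.exists_walk_length_eq_dist y u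
  obtain ⟨r, hr⟩ := hX.exists_walk_length_eq_dist u x
  obtain ⟨a, ha, hd⟩ := hS x y u p q r hp hq hr v hv
  have h1 : X.dist u v ≤ X.dist u a + X.dist a v := hX.dist_triangle
  have e1 : X.dist a v = X.dist v a := SimpleGraph.dist_comm
  rcases ha with ha | ha
  · right
    have h2 := split q ha
    have h3 : X.dist v y ≤ X.dist v a + X.dist a y := hX.dist_triangle
    have e2 : X.dist a y = X.dist y a := SimpleGraph.dist_comm
    have e3 : X.dist u a = X.dist a u := SimpleGraph.dist_comm
    have h4 : X.dist u v + X.dist v y ≤ X.dist y u + 2 * X.dist v a := by omega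
    have h5 : (X.dist u v : ℝ) + X.dist v y ≤ X.dist y u + 2 * X.dist v a := by exact_mod_cast h4
    linarith
  · left
    have h2 := split r ha
    have h3 : X.dist x v ≤ X.dist x a + X.dist a v := hX.dist_triangle
    have e2 : X.dist x a = X.dist a x := SimpleGraph.dist_comm
    have e3 : X.dist u x = X.dist x u := SimpleGraph.dist_comm
    have h4 : X.dist u v + X.dist x v ≤ X.dist x u + 2 * X.dist v a := by omega
    have h5 : (X.dist u v : ℝ) + X.dist x v ≤ X.dist x u + 2 * X.dist v a := by exact_mod_cast h4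
    linarith

end SlimA

open SlimA in
theorem p_SLIM :
    S_SLIM := by
  intro V X δ hX hδ hS
  refine ⟨2 * δ + 1, by positivity, fun w x y z => ?_⟩
  obtain ⟨p, hp⟩ := hX.exists_walk_length_eq_dist x y
  have t1 : X.dist x w ≤ X.dist x y + X.dist y w := hX.dist_triangle
  have t2 : X.dist y w ≤ X.dist y x + X.dist x w := hX.dist_triangle
  have e1 : X.dist y x = X.dist x y := SimpleGraph.dist_comm
  obtain ⟨v, hv, h1, h2⟩ := exists_at hX p ((X.dist x y + X.dist x w - X.dist y w) / 2) (by omega)
  have t3 : X.dist x y ≤ X.dist x v + X.dist v y := hX.dist_triangle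
  have t4 : X.dist z w ≤ X.dist z v + X.dist v w := hX.dist_triangle
  have e2 : X.dist v w = X.dist w v := SimpleGraph.dist_comm
  have a1 : X.dist x y + X.dist x w ≤ 2 * X.dist x v + X.dist y w + 1 := by omega
  have a2 : X.dist x y + X.dist y w ≤ 2 * X.dist v y + X.dist x w := by omega
  have a3 : X.dist z w ≤ X.dist z v + X.dist w v := by omega
  have b1 : (X.dist x y : ℝ) + X.dist x w ≤ 2 * X.dist x v + X.dist y w + 1 := by exact_mod_cast a1
  have b2 : (X.dist x y : ℝ) + X.dist y w ≤ 2 * X.dist v y + X.dist x w := by exact_mod_cast a2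
  have b3 : (X.dist z w : ℝ) ≤ X.dist z v + X.dist w v := by exact_mod_cast a3
  have c1 := le_max_left ((X.dist x z : ℝ) + X.dist y w) ((X.dist y z : ℝ) + X.dist x w)
  have c2 := le_max_right ((X.dist x z : ℝ) + X.dist y w) ((X.dist y z : ℝ) + X.dist x w)
  rcases near hX hS p hp hv w with k1 | k1 <;> rcases near hX hS p hp hv z with k2 | k2 <;>
    linarith

end Pool.Agent.P.MP_dba3d2_lc
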