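import Pool.Agent.P.MP_dba3d2_lc.H.Iface
import Pool.Agent.P.MP_dba3d2_lc.G.Iface
import Pool.Agent.P.MP_dba3d2_lc.A.Bas2

/-! Step STAB0 of the stability project. -/

namespace Pool.Agent.P.MP_dba3d2_lc

open Filter FirstOrder

namespace Stab0

variable {Γ : HG} (a : Amb)

theorem cp_false (f : ℕ → MM Γ a) : (cp a false).hom Γ (a.mk' U0 f) =
    (a.pow U0).mk' U0 fun _ : ℕ => a.mk' U0 fun i => f i := (mk'_hom U0 _).symm

theorem cp_true (f : ℕ → MM Γ a) : (cp a true).hom Γ (a.mk' U0 f) =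
    (a.pow U0).mk' U0 fun j : ℕ => a.mk' U0 fun _ : ℕ => f j := by
  refine (Ext.pow_mk' U0 (a.dg U0) f).trans ?_
  congr 1
  funext j
  exact (mk'_const U0 _).symm

theorem dbl {ι : Type} [Finite ι] (Q : (ι → Γ.G) → Prop) (F : ℕ → ℕ → ι → MM Γ a) :
    St (a := (a.pow U0).pow U0) Q
      (fun s => (a.pow U0).mk' U0 fun j => a.mk' U0 fun i => F j i s) ↔
      ∀ᶠ j in (U0 : Filter ℕ), ∀ᶠ i in (U0 : Filter ℕ), St Q (F j i) :=
  (st_mk' U0 Q fun j s => a.mk' U0 fun i => F j i s).trans
    (eventually_congr (Eventually.of_forall fun j => st_mk' U0 Q (F j)))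

theorem ev_gt (n : ℕ) : ∀ᶠ i in (U0 : Filter ℕ), n < i :=
  Nat.hyperfilter_le_atTop (eventually_gt_atTop n)

/-- the ambient on the natural numbers -/
noncomputable def amb : Amb where
  I := ℕ
  V := U0
  r := id
  hr := Nat.hyperfilter_le_atTop

end Stab0

open Stab0 in
theorem p_STAB0 (hTR : S_TR) (hPAIR : S_PAIR) :
    S_STAB0 := by
  intro Γ k l φ
  by_contra hn
  push Not at hn
  choose m x y hxy hm using hn
  let Q : (Fin k ⊕ Fin l → Γ.G) → Prop :=
    fun v => Sat Γ.G φ (fun i => v (.inl i)) fun i => v (.inr i)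
  let A0 : ℕ → Fin k → ℕ → Γ.G := fun i s n => if h : i < m n then x n ⟨i, h⟩ s else 1
  let B0 : ℕ → Fin l → ℕ → Γ.G := fun j t n => if h : j < m n then y n ⟨j, h⟩ t else 1
  let A : ℕ → Fin k → MM Γ amb := fun i s => Germ.ofFun (A0 i s)
  let B : ℕ → Fin l → MM Γ amb := fun j t => Germ.ofFun (B0 j t)
  have key : ∀ i j, St Q (Sum.elim (A i) (B j)) ↔ i < j := by
    intro i j
    have h1 : Sum.elim (A i) (B j) =
        fun s => (Germ.ofFun (Sum.elim (A0 i) (B0 j) s) : MM Γ amb) := by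
      funext s
      cases s <;> rfl
    rw [h1]
    refine (st_coe (a := amb) Q (Sum.elim (A0 i) (B0 j))).trans ?_
    have h2 : ∀ᶠ n in (U0 : Filter ℕ), (Q fun s => Sum.elim (A0 i) (B0 j) s n) ↔ i < j := by
      filter_upwards [ev_gt i, ev_gt j] with n hi hj
      have hi' : i < m n := hi.trans (hm n)
      have hj' : j < m n := hj.trans (hm n)
      have := hxy n ⟨i, hi'⟩ ⟨j, hj'⟩
      simp only [Q, A0, B0, Sum.elim_inl, Sum.elim_inr, dif_pos hi', dif_pos hj']
      exact this
    exact (eventually_congr h2).trans eventually_const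
  have h := hPAIR Γ amb (Fin k) (Fin l) Q (hTR Γ k l φ) (fun s => amb.mk' U0 fun i => A i s)
    fun t => amb.mk' U0 fun j => B j t
  have e1 : (Sum.elim (fun s => (cp amb false).hom Γ (amb.mk' U0 fun i => A i s))
      fun t => (cp amb true).hom Γ (amb.mk' U0 fun j => B j t)) =
      fun s => (amb.pow U0).mk' U0 fun j => amb.mk' U0 fun i => Sum.elim (A i) (B j) s := by
    funext s
    cases s with
    | inl s => exact cp_false amb _
    | inr s => exact cp_true amb _
  have e2 : (Sum.elim (fun s => (cp amb true).hom Γ (amb.mk' U0 fun i => A i s))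
      fun t => (cp amb false).hom Γ (amb.mk' U0 fun j => B j t)) =
      fun s => (amb.pow U0).mk' U0 fun j => amb.mk' U0 fun i => Sum.elim (A j) (B i) s := by
    funext s
    cases s with
    | inl s => exact cp_true amb _
    | inr s => exact cp_false amb _
  rw [e1, e2, dbl amb Q fun j i => Sum.elim (A i) (B j),
    dbl amb Q fun j i => Sum.elim (A j) (B i)] at h
  simp only [key] at h
  obtain ⟨j, hj⟩ := (h.2 (Eventually.of_forall ev_gt)).exists
  obtain ⟨i, h1, h2⟩ := (hj.and (ev_gt j)).exists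
  omega

end Pool.Agent.P.MP_dba3d2_lc
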