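import Pool.Agent.P.MP_dba3d2_lc.H.Iface
import Pool.Agent.P.MP_dba3d2_lc.F.Iface
import Pool.Agent.P.MP_dba3d2_lc.A.Bas2

/-! Step TR of the stability project. -/

namespace Pool.Agent.P.MP_dba3d2_lc

open Filter FirstOrder

namespace TrA

open Bas2A

variable {Γ : HG}

theorem reix {ι κ : Type} {Q : (κ → Γ.G) → Prop} (h : Tr Q) (f : κ → ι) :
    Tr fun z : ι → Γ.G => Q fun i => z (f i) :=
  fun a b H θ h1 h2 h3 v => h a b H θ h1 h2 h3 fun i => v (f i)

theorem st_false {ι : Type} {a : Amb} (v : ι → MM Γ a) :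
    ¬ St (fun _ : ι → Γ.G => False) v := fun h => by
  obtain ⟨_, h⟩ := Eventually.exists h
  exact h

theorem tr_false {ι : Type} : Tr fun _ : ι → Γ.G => False :=
  fun _ _ _ _ _ _ _ _ => iff_of_false (st_false _) (st_false _)

theorem st_imp {ι : Type} {a : Amb} (Q R : (ι → Γ.G) → Prop) (v : ι → MM Γ a) :
    St (fun z => Q z → R z) v ↔ (St Q v → St R v) := Ultrafilter.eventually_imp

theorem tr_imp {ι : Type} {Q R : (ι → Γ.G) → Prop} (hQ : Tr Q) (hR : Tr R) :
    Tr fun z => Q z → R z := fun a b H θ h1 h2 h3 v => by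
  rw [st_imp, st_imp, hQ a b H θ h1 h2 h3 v, hR a b H θ h1 h2 h3 v]

theorem st_one {ι : Type} [Finite ι] {a : Amb} (w : FreeGroup ι) (v : ι → MM Γ a) :
    St (fun z : ι → Γ.G => FreeGroup.lift z w = 1) v ↔ FreeGroup.lift v w = 1 := by
  obtain ⟨f, rfl⟩ := rep v
  rw [st_coe, lift_coe]
  exact (Germ.coe_eq (g := fun _ => 1)).symm

theorem tr_one {ι : Type} [Finite ι] (w : FreeGroup ι) :
    Tr fun z : ι → Γ.G => FreeGroup.lift z w = 1 := fun a b H θ _ _ h3 v => by
  rw [st_one, st_one, ← map_lift θ v w, map_eq_one_iff θ h3]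
  have e := map_lift H.subtype v w
  exact (iff_of_eq (congrArg (· = 1) e.symm)).trans
    (map_eq_one_iff H.subtype H.subtype_injective)

theorem term_word {α : Type} (G : Type) [Group G] (t : grpLang.Term α) :
    ∃ w : FreeGroup α, ∀ v : α → G,
      @Language.Term.realize grpLang G (grpStructure G) α v t = FreeGroup.lift v w := by
  induction t with
  | var x => exact ⟨FreeGroup.of x, fun v => by simp⟩
  | func f ts ih =>
    choose w hw using ih
    cases f with
    | mul =>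
      refine ⟨w 0 * w 1, fun v => ?_⟩
      rw [map_mul, ← hw, ← hw]
      rfl
    | inv =>
      refine ⟨(w 0)⁻¹, fun v => ?_⟩
      rw [map_inv, ← hw]
      rfl
    | one => exact ⟨1, fun v => by rw [map_one]; rfl⟩

theorem st_ex {m k : ℕ} {a : Amb} (Q : (Fin m ⊕ Fin k → Γ.G) → Prop) (h : Fin m → MM Γ a) :
    St (fun z : Fin m → Γ.G => ∃ x : Fin k → Γ.G, Q (Sum.elim z x)) h ↔
      ∃ x : Fin k → MM Γ a, St Q (Sum.elim h x) := by
  obtain ⟨f, rfl⟩ := rep h
  have e : ∀ g : Fin k → a.I → Γ.G,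
      St Q (Sum.elim (fun i => (Germ.ofFun (f i) : MM Γ a)) fun i => Germ.ofFun (g i)) ↔
        ∀ᶠ j in (a.V : Filter a.I), Q (Sum.elim (fun i => f i j) fun i => g i j) := fun g => by
    have e1 : Sum.elim (fun i => (Germ.ofFun (f i) : MM Γ a)) (fun i => Germ.ofFun (g i)) =
        fun s => Germ.ofFun (Sum.elim f g s) := funext fun s => by cases s <;> rfl
    rw [e1, st_coe]
    exact eventually_congr (Eventually.of_forall fun j =>
      iff_of_eq (congrArg Q (funext fun s => by cases s <;> rfl)))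
  rw [st_coe]
  constructor
  · intro hx
    obtain ⟨g, hg⟩ := hx.choice
    exact ⟨fun i => Germ.ofFun fun j => g j i, (e fun i j => g j i).2 hg⟩
  · rintro ⟨x, hx⟩
    obtain ⟨g, rfl⟩ := rep x
    exact ((e g).1 hx).mono fun j hj => ⟨_, hj⟩

theorem ex_push (hKEY : S_KEY) {m k : ℕ} {Q : (Fin m ⊕ Fin k → Γ.G) → Prop} (hQ : Tr Q)
    {a b : Amb} {H : Subgroup (MM Γ a)} (θ : H →* MM Γ b) (h1 : GC H) (h2 : GC θ.range)
    (h3 : Function.Injective θ) (v : Fin m → H)
    (hx : ∃ x : Fin k → MM Γ a, St Q (Sum.elim (fun i => (v i : MM Γ a)) x)) :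
    ∃ x : Fin k → MM Γ b, St Q (Sum.elim (fun i => θ (v i)) x) := by
  obtain ⟨x, hx⟩ := hx
  obtain ⟨y, hy, hs⟩ := (hKEY Γ a H h1).2 m k Q hQ _ (fun i => (v i).2) x
    (fun _ => Subgroup.mem_top _) hx
  have k1 := hQ a b H θ h1 h2 h3 (Sum.elim v fun i => ⟨y i, hy i⟩)
  refine ⟨fun i => θ ⟨y i, hy i⟩, ?_⟩
  have e1 : (fun s => ((Sum.elim v (fun i => ⟨y i, hy i⟩) s : H) : MM Γ a)) =
      Sum.elim (fun i => (v i : MM Γ a)) y := funext fun s => by cases s <;> rfl
  have e2 : (fun s => θ (Sum.elim v (fun i => ⟨y i, hy i⟩) s)) =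
      Sum.elim (fun i => θ (v i)) fun i => θ ⟨y i, hy i⟩ := funext fun s => by cases s <;> rfl
  rw [e1, e2] at k1
  exact k1.1 hs

theorem tr_ex (hKEY : S_KEY) {m k : ℕ} {Q : (Fin m ⊕ Fin k → Γ.G) → Prop} (hQ : Tr Q) :
    Tr fun z : Fin m → Γ.G => ∃ x : Fin k → Γ.G, Q (Sum.elim z x) := by
  intro a b H θ h1 h2 h3 v
  rw [st_ex, st_ex]
  refine ⟨ex_push hKEY hQ θ h1 h2 h3 v, fun hx => ?_⟩
  let e : H ≃* θ.range := MonoidHom.ofInjective h3
  let θ' : θ.range →* MM Γ a := H.subtype.comp e.symm.toMonoidHom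
  have hr : θ'.range = H := by
    ext x
    constructor
    · rintro ⟨y, rfl⟩
      exact (e.symm y).2
    · intro hx
      exact ⟨e ⟨x, hx⟩, congrArg Subtype.val (e.symm_apply_apply ⟨x, hx⟩)⟩
  have hi : Function.Injective θ' := H.subtype_injective.comp e.symm.injective
  have k1 := ex_push hKEY hQ θ' h2 (hr.symm ▸ h1) hi (fun i => e (v i)) hx
  have e1 : (fun i => θ' (e (v i))) = fun i => (v i : MM Γ a) :=
    funext fun i => congrArg Subtype.val (e.symm_apply_apply (v i))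
  rwa [e1] at k1

theorem tr_bd (hKEY : S_KEY) {α : Type} [Finite α] {n : ℕ} (φ : grpLang.BoundedFormula α n) :
    Tr fun z : α ⊕ Fin n → Γ.G =>
      @Language.BoundedFormula.Realize grpLang Γ.G (grpStructure Γ.G) α n φ
        (fun i => z (.inl i)) fun i => z (.inr i) := by
  let _ := grpStructure Γ.G
  induction φ with
  | falsum => exact tr_false
  | equal t1 t2 =>
    obtain ⟨w1, h1⟩ := term_word Γ.G t1
    obtain ⟨w2, h2⟩ := term_word Γ.G t2
    convert tr_one (Γ := Γ) (w1 * w2⁻¹) using 2 with z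
    have e : Sum.elim (fun i => z (.inl i)) (fun i => z (.inr i)) = z :=
      funext fun s => by cases s <;> rfl
    rw [map_mul, map_inv, mul_inv_eq_one, ← h1, ← h2]
    simp only [Language.BoundedFormula.Realize, e]
  | rel R _ => exact R.elim
  | imp f1 f2 ih1 ih2 => exact tr_imp ih1 ih2
  | @all n f ih =>
    obtain ⟨m, ⟨e⟩⟩ := Finite.exists_equiv_fin (α ⊕ Fin n)
    let g : α ⊕ Fin (n + 1) → Fin m ⊕ Fin 1 :=
      Sum.elim (fun i => .inl (e (.inl i)))
        (Fin.snoc (α := fun _ => Fin m ⊕ Fin 1) (fun j => .inl (e (.inr j))) (.inr 0))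
    have k1 := tr_imp (reix (tr_ex hKEY (tr_imp (reix ih g) tr_false)) e.symm) tr_false
    have e2 : ∀ (z : α ⊕ Fin n → Γ.G) (x : Fin 1 → Γ.G),
        (fun i => Sum.elim (fun i => z (e.symm i)) x (g (.inr i))) =
          Fin.snoc (α := fun _ => Γ.G) (fun i => z (.inr i)) (x 0) := fun z x => by
      funext i
      refine Fin.lastCases ?_ (fun j => ?_) i <;> simp [g]
    have e3 : ∀ (z : α ⊕ Fin n → Γ.G) (x : Fin 1 → Γ.G),
        (fun i => Sum.elim (fun i => z (e.symm i)) x (g (.inl i))) = fun i => z (.inl i) :=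
      fun z x => by
      funext i
      simp [g]
    simp only [e2, e3] at k1
    convert k1 using 2 with z
    simp only [Language.BoundedFormula.Realize]
    constructor
    · rintro h ⟨x, hx⟩
      exact hx (h _)
    · intro h x
      by_contra hx
      exact h ⟨fun _ => x, hx⟩

end TrA

theorem p_TR (hKEY : S_KEY) :
    S_TR := by
  intro Γ k l φ
  have h := TrA.reix (TrA.tr_bd (Γ := Γ) hKEY φ)
    (Sum.elim id Fin.elim0 : (Fin k ⊕ Fin l) ⊕ Fin 0 → Fin k ⊕ Fin l)
  convert h using 2 with z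
  have e : Sum.elim (fun i => z (.inl i)) (fun i => z (.inr i)) = z :=
    funext fun s => by cases s <;> rfl
  simp only [Sat, Language.Formula.Realize, e]
  exact iff_of_eq (congrArg₂ _ rfl (Subsingleton.elim _ _))

end Pool.Agent.P.MP_dba3d2_lc
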