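import Pool.Agent.P.MP_dba3d2_lc.H.Iface

/-! Transfer of the final statement to groups in an arbitrary universe. -/

namespace Pool.Agent.P.MP_dba3d2_lc

open FirstOrder

universe u v

namespace Univ

lemma edist_le_iso {V : Type u} {W : Type v} {X : SimpleGraph V} {Y : SimpleGraph W} (e : X ≃g Y)
    (a b : V) : Y.edist (e a) (e b) ≤ X.edist a b := by
  by_cases h : X.Reachable a b
  · obtain ⟨p, hp⟩ := h.exists_walk_length_eq_edist
    have := SimpleGraph.edist_le (p.map e.toHom)
    rw [SimpleGraph.Walk.length_map, hp] at this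
    exact this
  · rw [SimpleGraph.edist_eq_top_of_not_reachable h]
    exact le_top

lemma dist_iso {V : Type u} {W : Type v} {X : SimpleGraph V} {Y : SimpleGraph W} (e : X ≃g Y)
    (a b : V) : Y.dist (e a) (e b) = X.dist a b := by
  have h1 := edist_le_iso e a b
  have h2 := edist_le_iso e.symm (e a) (e b)
  rw [e.symm_apply_apply, e.symm_apply_apply] at h2
  unfold SimpleGraph.dist
  rw [le_antisymm h1 h2]

lemma fourPoint_iso {V : Type u} {W : Type v} {X : SimpleGraph V} {Y : SimpleGraph W} (e : X ≃g Y)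
    {δ : ℝ} (h : FourPoint Y δ) : FourPoint X δ := by
  intro w x y z
  have := h (e w) (e x) (e y) (e z)
  simpa only [dist_iso] using this

lemma slim_iso {V : Type u} {W : Type v} {X : SimpleGraph V} {Y : SimpleGraph W} (e : X ≃g Y)
    {δ : ℝ} (h : Slim Y δ) : Slim X δ := by
  intro x y z p q r hp hq hr a ha
  obtain ⟨w, hw, hd⟩ := h (e x) (e y) (e z) (p.map e.toHom) (q.map e.toHom) (r.map e.toHom)
    (by rw [SimpleGraph.Walk.length_map, dist_iso, hp])
    (by rw [SimpleGraph.Walk.length_map, dist_iso, hq])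
    (by rw [SimpleGraph.Walk.length_map, dist_iso, hr]) (e a)
    (by rw [SimpleGraph.Walk.support_map]; exact List.mem_map.2 ⟨a, ha, rfl⟩)
  rw [SimpleGraph.Walk.support_map, SimpleGraph.Walk.support_map, List.mem_map,
    List.mem_map] at hw
  rcases hw with ⟨b, hb, rfl⟩ | ⟨b, hb, rfl⟩
  · exact ⟨b, Or.inl hb, by rw [← dist_iso e]; exact hd⟩
  · exact ⟨b, Or.inr hb, by rw [← dist_iso e]; exact hd⟩

/-- A group isomorphism gives an isomorphism of Cayley graphs. -/
def cayIso {G : Type u} {H : Type v} [Group G] [Group H] (e : G ≃* H) (S : Set G) (T : Set H)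
    (h : ∀ g, g ∈ S ↔ e g ∈ T) : SimpleGraph.mulCayley S ≃g SimpleGraph.mulCayley T where
  toEquiv := e.toEquiv
  map_rel_iff' := by
    intro a b
    rw [SimpleGraph.mulCayley_adj, SimpleGraph.mulCayley_adj, h, h, map_mul, map_mul, map_inv,
      map_inv]
    exact and_congr e.injective.ne_iff Iff.rfl

lemma hyp_equiv {G : Type u} {H : Type v} [Group G] [Group H] (e : G ≃* H) (h : IsHyperbolic H) :
    IsHyperbolic G := by
  obtain ⟨T, hT, δ, hδ, h⟩ := h
  have hm : ∀ g, g ∈ ((T.map e.symm.toEquiv.toEmbedding : Finset G) : Set G) ↔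
      e g ∈ (T : Set H) := by
    intro g
    rw [Finset.mem_coe, Finset.mem_coe, Finset.mem_map_equiv]
    rfl
  refine ⟨T.map e.symm.toEquiv.toEmbedding, ?_, δ, hδ, h.imp
    (fourPoint_iso (cayIso e _ _ hm)) (slim_iso (cayIso e _ _ hm))⟩
  have h1 := MonoidHom.map_closure e.symm.toMonoidHom (T : Set H)
  rw [hT, Subgroup.map_top_of_surjective _ e.symm.surjective] at h1
  rw [Finset.coe_map]
  exact h1.symm

lemma sat_equiv {G : Type u} {H : Type v} [Group G] [Group H] (e : G ≃* H) {k l : ℕ}
    (φ : grpLang.Formula (Fin k ⊕ Fin l)) (x : Fin k → G) (y : Fin l → G) :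
    Sat H φ (e ∘ x) (e ∘ y) ↔ Sat G φ x y := by
  let _ := grpStructure G
  let _ := grpStructure H
  let f : Language.Equiv grpLang G H :=
    { toEquiv := e.toEquiv
      map_fun' := by
        intro n f v
        cases f
        · exact map_mul e _ _
        · exact map_inv e _
        · exact map_one e
      map_rel' := fun r _ => r.elim }
  have h := Language.StrongHomClass.realize_formula f φ (v := Sum.elim x y)
  rw [Sum.comp_elim] at h
  exact h

lemma stab_equiv {G : Type u} {H : Type v} [Group G] [Group H] (e : G ≃* H) (h : IsStable H) :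
    IsStable G := by
  intro k l φ
  obtain ⟨n, hn⟩ := h k l φ
  exact ⟨n, fun m x y hxy => hn m (fun i => e ∘ x i) (fun j => e ∘ y j) fun i j =>
    (sat_equiv e φ (x i) (y j)).trans (hxy i j)⟩

lemma countable_of {G : Type u} [Group G] (h : IsHyperbolic G) : Countable G := by
  obtain ⟨S, hS, -⟩ := h
  have h1 : Function.Surjective (FreeGroup.lift (fun g : ↥(S : Set G) => (g : G))) := by
    rw [← MonoidHom.range_eq_top, FreeGroup.range_lift_eq_closure, Subtype.range_coe, hS]
  exact h1.countable

end Univ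

theorem univ.{w} (h : S_FIN0) (G : Type w) [Group G] : IsHyperbolic G → IsStable G := by
  intro hG
  have := Univ.countable_of hG
  have : Small.{0} G := inferInstance
  have e : Shrink.{0} G ≃* G := Shrink.mulEquiv
  exact Univ.stab_equiv e.symm (h _ (Univ.hyp_equiv e hG))

end Pool.Agent.P.MP_dba3d2_lc
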